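import Pool.Agent.W236.SC.Defs2

/-!
# Dihedral decomposition (project SC, part DIH)
-/

set_option autoImplicit false

namespace Pool.Agent.W612.SC.DihP

open Pool.Agent.W236.SC Pool.Agent.Helper741

variable {B : Type*} [Fintype B] [DecidableEq B] {M : CoxeterMatrix B}
variable {W : Type*} [Group W] (cs : CoxeterSystem M W)

open Classical in
/-- the minimal coset representatives -/
noncomputable def hh (b : W) (s t : B) (q : ℕ → B) (U : Finset ℕ) : ℕ → W
  | 0 => b⁻¹
  | (k + 1) => if PsiAt cs b s t q U k then hh b s t q U k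
      else if k ∈ U then hh b s t q U k * cs.simple (q k) else hh b s t q U k

/-- the dihedral part -/
noncomputable def dd (b : W) (s t : B) (q : ℕ → B) (U : Finset ℕ) (k : ℕ) : W :=
  b⁻¹ * pf cs q U k * (hh cs b s t q U k)⁻¹

lemma geo_inv_apply (w : W) (x : B → ℝ) : geo cs w⁻¹ (geo cs w x) = x := by
  rw [← Module.End.mul_apply, ← map_mul, inv_mul_cancel, map_one, Module.End.one_apply]

lemma geo_apply_inv (w : W) (x : B → ℝ) : geo cs w (geo cs w⁻¹ x) = x := by
  rw [← Module.End.mul_apply, ← map_mul, mul_inv_cancel, map_one, Module.End.one_apply]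

omit [Fintype B] in
lemma supp_decomp (s t : B) (hst : s ≠ t) (φ : B → ℝ) (h : ∀ i, i ≠ s → i ≠ t → φ i = 0) :
    φ = φ s • ee s + φ t • ee t := by
  funext i
  by_cases h1 : i = s
  · subst h1
    simp [ee, hst]
  · by_cases h2 : i = t
    · subst h2
      simp [ee, h1]
    · simp [ee, h1, h2, h i h1 h2]

/-- main geometric fact -/
lemma key (hB : BaseF cs) (s t : B) (hst : s ≠ t) (h : W) (r : B)
    (hs : 0 ≤ geo cs h⁻¹ (ee s)) (ht : 0 ≤ geo cs h⁻¹ (ee t))
    (hsupp : ∀ i, i ≠ s → i ≠ t → geo cs h (ee r) i = 0) :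
    geo cs h (ee r) = ee s ∨ geo cs h (ee r) = ee t := by
  set φ := geo cs h (ee r) with hφ
  have hdec := supp_decomp s t hst φ hsupp
  set A := geo cs h⁻¹ (ee s) with hA
  set C := geo cs h⁻¹ (ee t) with hC
  have hq : (ee r : B → ℝ) = φ s • A + φ t • C := by
    have h1 : geo cs h⁻¹ φ = ee r := by rw [hφ, geo_inv_apply]
    rw [← h1]
    conv_lhs => rw [hdec]
    rw [map_add, map_smul, map_smul]
  have hRA : IsRt cs A := hB.rt_geo _ _ (hB.rt_ee s)
  have hRC : IsRt cs C := hB.rt_geo _ _ (hB.rt_ee t)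
  have hRφ : IsRt cs φ := hB.rt_geo _ _ (hB.rt_ee r)
  have hq1 : (1 : ℝ) = φ s * A r + φ t * C r := by
    have := congrFun hq r
    simpa [ee] using this
  have hpos : 0 ≤ φ := by
    rcases hB.rt_sign φ hRφ with h1 | h1
    · exact h1
    · exfalso
      have a1 : φ s * A r ≤ 0 := mul_nonpos_of_nonpos_of_nonneg (h1 s) (hs r)
      have a2 : φ t * C r ≤ 0 := mul_nonpos_of_nonpos_of_nonneg (h1 t) (ht r)
      linarith
  have hj : ∀ j, j ≠ r → φ s * A j = 0 ∧ φ t * C j = 0 := by
    intro j hj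
    have h1 := congrFun hq j
    have h2 : (0 : ℝ) = φ s * A j + φ t * C j := by
      simpa [ee, hj] using h1
    have a1 : 0 ≤ φ s * A j := mul_nonneg (hpos s) (hs j)
    have a2 : 0 ≤ φ t * C j := mul_nonneg (hpos t) (ht j)
    constructor <;> linarith
  by_cases h1 : φ s = 0
  · right
    have h2 : φ t ≠ 0 := by
      intro h3
      rw [h1, h3] at hq1
      norm_num at hq1
    have h3 : C = ee r := by
      apply hB.rt_supp C r hRC ht
      intro j hjr
      exact (mul_eq_zero.mp (hj j hjr).2).resolve_left h2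
    rw [hφ, ← h3, hC, geo_apply_inv]
  · left
    have h3 : A = ee r := by
      apply hB.rt_supp A r hRA hs
      intro j hjr
      exact (mul_eq_zero.mp (hj j hjr).1).resolve_left h1
    rw [hφ, ← h3, hA, geo_apply_inv]

lemma dd_mul (b : W) (s t : B) (q : ℕ → B) (U : Finset ℕ) (k : ℕ) :
    b⁻¹ * pf cs q U k = dd cs b s t q U k * hh cs b s t q U k := by
  unfold dd
  rw [inv_mul_cancel_right]

lemma psi_iff (hB : BaseF cs) (hPl : S_PLANE cs) (b : W) (s t : B) (hst : s ≠ t) (q : ℕ → B)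
    (U : Finset ℕ) (k : ℕ)
    (hd : dd cs b s t q U k ∈ Subgroup.closure {cs.simple s, cs.simple t})
    (hs : 0 ≤ geo cs (hh cs b s t q U k)⁻¹ (ee s)) (ht : 0 ≤ geo cs (hh cs b s t q U k)⁻¹ (ee t)) :
    PsiAt cs b s t q U k ↔ geo cs (hh cs b s t q U k) (ee (q k)) = ee s ∨
      geo cs (hh cs b s t q U k) (ee (q k)) = ee t := by
  have h1 : geo cs b⁻¹ (rt cs q U k) =
      geo cs (dd cs b s t q U k) (geo cs (hh cs b s t q U k) (ee (q k))) := by
    unfold rt
    rw [← Module.End.mul_apply, ← map_mul, dd_mul cs b s t q U k, map_mul, Module.End.mul_apply]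
  have h2 := (hPl s t hst _ hd).1
  constructor
  · intro h
    apply key cs hB s t hst _ _ hs ht
    intro i hi1 hi2
    have := h i hi1 hi2
    rw [h1, h2 _ i hi1 hi2] at this
    exact this
  · rintro (h | h)
    · intro i hi1 hi2
      rw [h1, h2 _ i hi1 hi2, h]
      simp [ee, hi1]
    · intro i hi1 hi2
      rw [h1, h2 _ i hi1 hi2, h]
      simp [ee, hi2]

lemma step_psi (b : W) (s t : B) (q : ℕ → B) (U : Finset ℕ) (k : ℕ)
    (h : PsiAt cs b s t q U k) : hh cs b s t q U (k + 1) = hh cs b s t q U k := by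
  rw [hh, if_pos h]

lemma step_nonU (b : W) (s t : B) (q : ℕ → B) (U : Finset ℕ) (k : ℕ)
    (h : ¬ PsiAt cs b s t q U k) (hk : k ∈ U) :
    hh cs b s t q U (k + 1) = hh cs b s t q U k * cs.simple (q k) := by
  rw [hh, if_neg h, if_pos hk]

lemma step_nonS (b : W) (s t : B) (q : ℕ → B) (U : Finset ℕ) (k : ℕ)
    (h : ¬ PsiAt cs b s t q U k) (hk : k ∉ U) :
    hh cs b s t q U (k + 1) = hh cs b s t q U k := by
  rw [hh, if_neg h, if_neg hk]

lemma d_psiU (hB : BaseF cs) (b : W) (s t : B) (q : ℕ → B) (U : Finset ℕ) (k : ℕ)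
    (h : PsiAt cs b s t q U k) (hk : k ∈ U) (z : B)
    (hz : geo cs (hh cs b s t q U k) (ee (q k)) = ee z) :
    dd cs b s t q U (k + 1) = dd cs b s t q U k * cs.simple z := by
  have h1 := hB.conj _ _ _ hz
  unfold dd
  rw [step_psi cs b s t q U k h, pf, if_pos hk]
  have h2 : (hh cs b s t q U k)⁻¹ * cs.simple z = cs.simple (q k) * (hh cs b s t q U k)⁻¹ := by
    rw [inv_mul_eq_iff_eq_mul, ← mul_assoc, h1, mul_inv_cancel_right]
  simp only [mul_assoc]
  rw [h2]

lemma d_skip (b : W) (s t : B) (q : ℕ → B) (U : Finset ℕ) (k : ℕ) (hk : k ∉ U) :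
    dd cs b s t q U (k + 1) = dd cs b s t q U k := by
  unfold dd
  by_cases h : PsiAt cs b s t q U k
  · rw [step_psi cs b s t q U k h, pf, if_neg hk]
  · rw [step_nonS cs b s t q U k h hk, pf, if_neg hk]

lemma d_non (b : W) (s t : B) (q : ℕ → B) (U : Finset ℕ) (k : ℕ)
    (h : ¬ PsiAt cs b s t q U k) : dd cs b s t q U (k + 1) = dd cs b s t q U k := by
  by_cases hk : k ∈ U
  · unfold dd
    rw [step_nonU cs b s t q U k h hk, pf, if_pos hk, mul_inv_rev]
    simp only [mul_assoc, cs.inv_simple, cs.simple_mul_simple_cancel_left]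
  · exact d_skip cs b s t q U k hk

lemma main (hB : BaseF cs) (hPl : S_PLANE cs) (b : W) (s t : B) (hst : s ≠ t) (q : ℕ → B)
    (U : Finset ℕ) (hbs : 0 ≤ geo cs b (ee s)) (hbt : 0 ≤ geo cs b (ee t)) (k : ℕ) :
    dd cs b s t q U k ∈ Subgroup.closure {cs.simple s, cs.simple t} ∧
    0 ≤ geo cs (hh cs b s t q U k)⁻¹ (ee s) ∧ 0 ≤ geo cs (hh cs b s t q U k)⁻¹ (ee t) := by
  induction k with
  | zero =>
    refine ⟨?_, ?_, ?_⟩
    · have : dd cs b s t q U 0 = 1 := by
        unfold dd
        rw [pf, hh]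
        group
      rw [this]
      exact one_mem _
    · rw [hh, inv_inv]
      exact hbs
    · rw [hh, inv_inv]
      exact hbt
  | succ k ih =>
    obtain ⟨i1, i2, i3⟩ := ih
    have hpsi := psi_iff cs hB hPl b s t hst q U k i1 i2 i3
    by_cases h : PsiAt cs b s t q U k
    · rw [step_psi cs b s t q U k h]
      refine ⟨?_, i2, i3⟩
      by_cases hk : k ∈ U
      · rcases hpsi.mp h with hz | hz
        · rw [d_psiU cs hB b s t q U k h hk s hz]
          exact mul_mem i1 (Subgroup.subset_closure (by simp))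
        · rw [d_psiU cs hB b s t q U k h hk t hz]
          exact mul_mem i1 (Subgroup.subset_closure (by simp))
      · rw [d_skip cs b s t q U k hk]
        exact i1
    · rw [d_non cs b s t q U k h]
      refine ⟨i1, ?_⟩
      by_cases hk : k ∈ U
      · rw [step_nonU cs b s t q U k h hk]
        have hn : ∀ z : B, 0 ≤ geo cs (hh cs b s t q U k)⁻¹ (ee z) →
            geo cs (hh cs b s t q U k) (ee (q k)) ≠ ee z →
            0 ≤ geo cs (hh cs b s t q U k * cs.simple (q k))⁻¹ (ee z) := by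
          intro z hz hne
          rw [mul_inv_rev, map_mul, Module.End.mul_apply, cs.inv_simple]
          apply hB.rt_simple _ _ (hB.rt_geo _ _ (hB.rt_ee z)) hz
          intro hcon
          apply hne
          rw [← hcon, geo_apply_inv]
        exact ⟨hn s i2 (fun hz => h (hpsi.mpr (Or.inl hz))),
          hn t i3 (fun hz => h (hpsi.mpr (Or.inr hz)))⟩
      · rw [step_nonS cs b s t q U k h hk]
        exact ⟨i2, i3⟩

lemma mkDih (hB : BaseF cs) (hPl : S_PLANE cs) (n : ℕ) (b : W) (s t : B) (hst : s ≠ t) (q : ℕ → B)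
    (U : Finset ℕ) (hbs : 0 ≤ geo cs b (ee s)) (hbt : 0 ≤ geo cs b (ee t)) (h : ℕ → W)
    (hh' : ∀ k, k ≤ n → h k = hh cs b s t q U k) : Dih cs n b s t q U (dd cs b s t q U) h := by
  have hm := main cs hB hPl b s t hst q U hbs hbt
  have hpsi := fun k => psi_iff cs hB hPl b s t hst q U k (hm k).1 (hm k).2.1 (hm k).2.2
  refine ⟨?_, ?_, ?_, ?_, ?_, ?_, ?_, ?_, ?_, ?_, ?_, ?_⟩
  · unfold dd
    rw [pf, hh]
    group
  · rw [hh' 0 (Nat.zero_le _), hh]
  · intro k hk
    rw [hh' k hk]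
    exact dd_mul cs b s t q U k
  · intro k _
    exact (hm k).1
  · intro k hk
    rw [hh' k hk]
    exact (hm k).2.1
  · intro k hk
    rw [hh' k hk]
    exact (hm k).2.2
  · intro k hk
    rw [hh' k hk.le]
    exact hpsi k
  · intro k hk hP
    rw [hh' k hk.le, hh' (k + 1) hk]
    exact step_psi cs b s t q U k hP
  · intro k hk z hz hφ
    rw [hh' k hk.le] at hφ
    refine ⟨fun hkU => ?_, fun hkU => d_skip cs b s t q U k hkU⟩
    have hP : PsiAt cs b s t q U k := by
      apply (hpsi k).mpr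
      rcases hz with rfl | rfl
      · exact Or.inl hφ
      · exact Or.inr hφ
    exact d_psiU cs hB b s t q U k hP hkU z hφ
  · intro k _ hP
    exact d_non cs b s t q U k hP
  · intro k hk hP hkU
    rw [hh' k hk.le, hh' (k + 1) hk]
    exact step_nonU cs b s t q U k hP hkU
  · intro k hk hP hkU
    rw [hh' k hk.le, hh' (k + 1) hk]
    exact step_nonS cs b s t q U k hP hkU

theorem dih (hB : BaseF cs) (hPl : S_PLANE cs) : S_DIH cs := by
  intro n q ω b s t hst _ hbs hbt U _
  have hbs' : 0 ≤ geo cs b (ee s) := (geo_nonneg_iff cs b s).mpr hbs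
  have hbt' : 0 ≤ geo cs b (ee t) := (geo_nonneg_iff cs b t).mpr hbt
  refine ⟨dd cs b s t q U, hh cs b s t q U,
    mkDih cs hB hPl n b s t hst q U hbs' hbt' _ (fun _ _ => rfl), ?_⟩
  intro U' _ hsame
  refine ⟨dd cs b s t q U', mkDih cs hB hPl n b s t hst q U' hbs' hbt' _ ?_⟩
  intro k
  induction k with
  | zero => intro _; rw [hh, hh]
  | succ k ih =>
    intro hk
    have ih' := ih (by omega)
    obtain ⟨e1, e2⟩ := hsame k (by omega)
    by_cases h : PsiAt cs b s t q U k
    · rw [step_psi cs b s t q U k h, step_psi cs b s t q U' k (e1.mp h), ih']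
    · have h' : ¬ PsiAt cs b s t q U' k := fun h2 => h (e1.mpr h2)
      by_cases hkU : k ∈ U
      · rw [step_nonU cs b s t q U k h hkU, step_nonU cs b s t q U' k h' ((e2 h).mp hkU), ih']
      · rw [step_nonS cs b s t q U k h hkU,
          step_nonS cs b s t q U' k h' (fun h3 => hkU ((e2 h).mpr h3)), ih']

end Pool.Agent.W612.SC.DihP
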