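import Pool.Agent.W236.SC.Defs2

/-!
# Transport of the Euler form (project SC, part EINV)
-/

set_option autoImplicit false

namespace Pool.Agent.W612.SC.Einv

open Pool.Agent.W236.SC Pool.Agent.Helper741

section form

variable {B : Type*} [Fintype B] [DecidableEq B] (M : CoxeterMatrix B)

/-- Euler form of the order given by the rank function `ρ` -/
noncomputable def E (ρ : B → ℤ) (u v : B → ℝ) : ℝ :=
  ∑ i, ∑ j, ((if i = j then u i * v j else 0) +
    (if ρ j < ρ i then (-2 * cc M i j) * u i * v j else 0))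

omit [DecidableEq B] in
lemma coroot_apply (r : B) (v : B → ℝ) : coroot M r v = ∑ j, (-2 * cc M r j) * v j := by
  unfold coroot
  rw [LinearMap.sum_apply]
  apply Finset.sum_congr rfl
  intro j _
  rw [LinearMap.smul_apply, LinearMap.proj_apply, smul_eq_mul]

lemma addA (ρ : B → ℤ) (r : B) (h3 : ∀ j, j ≠ r → cc M r j ≠ 0 → ρ r < ρ j) (u v : B → ℝ) (c : ℝ) :
    E M ρ (u + c • ee r) v = E M ρ u v + c * v r := by
  have h1 : c * v r = ∑ i, ∑ j, (if i = r then (if j = r then c * v j else 0) else 0) := by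
    rw [Finset.sum_eq_single r]
    · rw [Finset.sum_eq_single r]
      · simp
      · intro j _ hj
        simp [hj]
      · intro h
        exact absurd (Finset.mem_univ _) h
    · intro i _ hi
      simp [hi]
    · intro h
      exact absurd (Finset.mem_univ _) h
  rw [h1]
  unfold E
  rw [← Finset.sum_add_distrib]
  apply Finset.sum_congr rfl
  intro i _
  rw [← Finset.sum_add_distrib]
  apply Finset.sum_congr rfl
  intro j _
  by_cases hi : i = r
  · subst hi
    by_cases hj : j = i
    · subst hj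
      simp
      ring
    · have hij : i ≠ j := fun h => hj h.symm
      by_cases hc : cc M i j = 0
      · simp [hc, hj, hij]
      · have := h3 j hj hc
        have h4 : ¬ ρ j < ρ i := by omega
        simp [hj, hij, h4]
  · simp [hi]

lemma addB (ρ : B → ℤ) (r : B) (h3 : ∀ j, j ≠ r → cc M r j ≠ 0 → ρ r < ρ j) (u v : B → ℝ) (c : ℝ) :
    E M ρ u (v + c • ee r) = E M ρ u v + c * (coroot M r u - u r) := by
  have h1 : c * (coroot M r u - u r) = ∑ i, ∑ j, (if j = r then
      c * ((-2 * cc M r i) * u i) - (if i = r then c * u i else 0) else 0) := by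
    rw [coroot_apply]
    have : ∀ i, ∑ j, (if j = r then
      c * ((-2 * cc M r i) * u i) - (if i = r then c * u i else 0) else 0) =
      c * ((-2 * cc M r i) * u i) - (if i = r then c * u i else 0) := by
      intro i
      rw [Finset.sum_ite_eq' Finset.univ r]
      simp
    rw [Finset.sum_congr rfl (fun i _ => this i), Finset.sum_sub_distrib, mul_sub, Finset.mul_sum,
      Finset.sum_ite_eq' Finset.univ r]
    simp
  rw [h1]
  unfold E
  rw [← Finset.sum_add_distrib]
  apply Finset.sum_congr rfl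
  intro i _
  rw [← Finset.sum_add_distrib]
  apply Finset.sum_congr rfl
  intro j _
  by_cases hj : j = r
  · subst hj
    by_cases hi : i = j
    · subst hi
      simp
      ring
    · by_cases hc : cc M i j = 0
      · have hc' : cc M j i = 0 := by rw [cc_symm]; exact hc
        simp [hc, hc', hi]
      · have hc' : cc M j i ≠ 0 := by rw [cc_symm]; exact hc
        have := h3 i hi hc'
        simp [hi, this, cc_symm M j i]
        ring
  · simp [hj]

lemma stepC (ρ ρ' : B → ℤ) (r : B) (h1 : ∀ j, j ≠ r → ρ' j = ρ j) (h2 : ∀ j, j ≠ r → ρ' j < ρ' r)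
    (h3 : ∀ j, j ≠ r → cc M r j ≠ 0 → ρ r < ρ j) (u v : B → ℝ) :
    E M ρ' u v = E M ρ u v + (u r * coroot M r v - v r * coroot M r u) := by
  have e1 : u r * coroot M r v = ∑ i, ∑ j, (if i = r then (-2 * cc M i j) * u i * v j else 0) := by
    rw [coroot_apply, Finset.mul_sum]
    symm
    rw [Finset.sum_eq_single r]
    · apply Finset.sum_congr rfl
      intro j _
      rw [if_pos rfl]
      ring
    · intro i _ hi
      simp [hi]
    · intro h
      exact absurd (Finset.mem_univ _) h
  have e2 : v r * coroot M r u = ∑ i, ∑ j, (if j = r then (-2 * cc M i j) * u i * v j else 0) := by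
    rw [coroot_apply, Finset.mul_sum]
    apply Finset.sum_congr rfl
    intro i _
    rw [Finset.sum_ite_eq' Finset.univ r]
    simp [cc_symm M r i]
    ring
  rw [e1, e2, ← Finset.sum_sub_distrib]
  unfold E
  rw [← Finset.sum_add_distrib]
  apply Finset.sum_congr rfl
  intro i _
  rw [← Finset.sum_sub_distrib, ← Finset.sum_add_distrib]
  apply Finset.sum_congr rfl
  intro j _
  by_cases hi : i = r
  · subst hi
    by_cases hj : j = i
    · subst hj
      simp
    · have hij : i ≠ j := fun h => hj h.symm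
      have a1 := h2 j hj
      by_cases hc : cc M i j = 0
      · simp [hc]
      · have := h3 j hj hc
        have h4 : ¬ ρ j < ρ i := by omega
        simp [hj, hij, h4, a1]
  · by_cases hj : j = r
    · subst hj
      have a1 := h2 i hi
      have a2 : ¬ ρ' j < ρ' i := by omega
      by_cases hc : cc M i j = 0
      · simp [hc]
      · have hc' : cc M j i ≠ 0 := by rw [cc_symm]; exact hc
        have := h3 i hi hc'
        simp [hi, this, a2]
    · simp [hi, hj, h1 i hi, h1 j hj]

lemma E_zero (ρ : B → ℤ) (v : B → ℝ) : E M ρ 0 v = 0 := by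
  unfold E
  simp

lemma coroot_sg (r : B) (u : B → ℝ) : coroot M r (sg M r u) = - coroot M r u := by
  rw [sg_apply, map_sub, map_smul, coroot_ee, cc_self]
  simp
  ring

lemma sg_r (r : B) (u : B → ℝ) : (sg M r u) r = u r - coroot M r u := by
  rw [sg_apply]
  simp [ee]

lemma stepU (ρ ρ' : B → ℤ) (r : B) (h1 : ∀ j, j ≠ r → ρ' j = ρ j) (h2 : ∀ j, j ≠ r → ρ' j < ρ' r)
    (h3 : ∀ j, j ≠ r → cc M r j ≠ 0 → ρ r < ρ j) (u v : B → ℝ) :
    E M ρ' (sg M r u) (sg M r v) = E M ρ u v := by
  rw [stepC M ρ ρ' r h1 h2 h3, coroot_sg, coroot_sg, sg_r, sg_r]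
  have e1 : sg M r u = u + (- coroot M r u) • ee r := by
    rw [sg_apply, neg_smul]; rfl
  have e2 : sg M r v = v + (- coroot M r v) • ee r := by
    rw [sg_apply, neg_smul]; rfl
  have e3 : E M ρ (sg M r u) (sg M r v) = E M ρ u (sg M r v) + (- coroot M r u) * (sg M r v) r := by
    conv_lhs => rw [e1]
    rw [addA M ρ r h3]
  have e4 : E M ρ u (sg M r v) = E M ρ u v + (- coroot M r v) * (coroot M r u - u r) := by
    conv_lhs => rw [e2]
    rw [addB M ρ r h3]
  rw [e3, e4, sg_r]
  ring

end form

section ranks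

variable {B : Type*} [DecidableEq B]

/-- rank of a letter that has not occurred yet -/
noncomputable def sig (q : ℕ → B) (a b : ℕ) (i : B) : ℤ := by
  classical
  exact if h : ∃ t, a < t ∧ t ≤ b ∧ q t = i then (Nat.find h : ℤ) - (b + 2) else -1

lemma sig_neg (q : ℕ → B) (a b : ℕ) (i : B) : sig q a b i < 0 := by
  classical
  unfold sig
  split_ifs with h
  · have := (Nat.find_spec h).2.1
    omega
  · omega

lemma sig_first (q : ℕ → B) (a b k : ℕ) (hk : a < k) (hkb : k ≤ b)
    (h : ∀ t, a < t → t < k → q t ≠ q k) : sig q a b (q k) = (k : ℤ) - (b + 2) := by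
  classical
  unfold sig
  have hex : ∃ t, a < t ∧ t ≤ b ∧ q t = q k := ⟨k, hk, hkb, rfl⟩
  rw [dif_pos hex]
  have h1 : Nat.find hex ≤ k := Nat.find_min' hex ⟨hk, hkb, rfl⟩
  have h2 := Nat.find_spec hex
  have h3 : ¬ Nat.find hex < k := fun h4 => h _ h2.1 h4 h2.2.2
  have : Nat.find hex = k := by omega
  rw [this]

lemma sig_later (q : ℕ → B) (a b k : ℕ) (hkb : k ≤ b) (j : B)
    (h : ∀ t, a < t → t ≤ k → q t ≠ j) : (k : ℤ) - (b + 2) < sig q a b j := by
  classical
  unfold sig
  split_ifs with hex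
  · have h2 := Nat.find_spec hex
    have h3 : ¬ Nat.find hex ≤ k := fun h4 => h _ h2.1 h4 h2.2.2
    omega
  · omega

/-- ranks at time `k` -/
noncomputable def rho (q : ℕ → B) (a b : ℕ) : ℕ → B → ℤ
  | 0 => sig q a b
  | (k + 1) => if k < a then sig q a b else Function.update (rho q a b k) (q k) (k : ℤ)

lemma rho_le (q : ℕ → B) (a b k : ℕ) (hk : k ≤ a) : rho q a b k = sig q a b := by
  cases k with
  | zero => rfl
  | succ k => rw [rho, if_pos (by omega)]

lemma rho_fact (q : ℕ → B) (a b k : ℕ) (hk : a ≤ k) (i : B) :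
    (∃ t : ℕ, a ≤ t ∧ t < k ∧ q t = i ∧ rho q a b k i = t ∧ ∀ t', t < t' → t' < k → q t' ≠ i) ∨
    ((∀ t, a ≤ t → t < k → q t ≠ i) ∧ rho q a b k i = sig q a b i) := by
  induction k, hk using Nat.le_induction with
  | base =>
    right
    refine ⟨fun t h1 h2 => by omega, ?_⟩
    rw [rho_le q a b a le_rfl]
  | succ k hk ih =>
    rw [rho, if_neg (by omega)]
    by_cases hi : i = q k
    · left
      refine ⟨k, hk, by omega, hi.symm, ?_, fun t' h1 h2 => by omega⟩
      rw [hi, Function.update_self]
    · rw [Function.update_of_ne hi]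
      rcases ih with ⟨t, h1, h2, h3, h4, h5⟩ | ⟨h1, h2⟩
      · left
        refine ⟨t, h1, by omega, h3, h4, fun t' h6 h7 => ?_⟩
        by_cases h8 : t' = k
        · rw [h8]
          exact fun h9 => hi h9.symm
        · exact h5 t' h6 (by omega)
      · right
        refine ⟨fun t h3 h4 => ?_, h2⟩
        by_cases h8 : t = k
        · rw [h8]
          exact fun h9 => hi h9.symm
        · exact h1 t h3 (by omega)

lemma rho_lt (q : ℕ → B) (a b k : ℕ) (hk : a ≤ k) (i : B) : rho q a b k i < k := by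
  rcases rho_fact q a b k hk i with ⟨t, h1, h2, h3, h4, h5⟩ | ⟨h1, h2⟩
  · omega
  · have := sig_neg q a b i
    omega

lemma rho_h1 (q : ℕ → B) (a b k : ℕ) (hk : a ≤ k) (j : B) (hj : j ≠ q k) :
    rho q a b (k + 1) j = rho q a b k j := by
  rw [rho, if_neg (by omega), Function.update_of_ne hj]

lemma rho_h2 (q : ℕ → B) (a b k : ℕ) (hk : a ≤ k) (j : B) (hj : j ≠ q k) :
    rho q a b (k + 1) j < rho q a b (k + 1) (q k) := by
  rw [rho_h1 q a b k hk j hj, rho, if_neg (by omega), Function.update_self]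
  exact rho_lt q a b k hk j

lemma rho_h3 {M : CoxeterMatrix B} (n : ℕ) (q : ℕ → B) (a b : ℕ) (halt : AltM M n q) (hbn : b < n)
    (k : ℕ) (hk : a < k) (hkb : k ≤ b) (j : B) (hj : j ≠ q k) (hM : M (q k) j ≠ 2) :
    rho q a b k (q k) < rho q a b k j := by
  rcases rho_fact q a b k hk.le (q k) with ⟨t, h1, h2, h3, h4, h5⟩ | ⟨h1, h2⟩
  · obtain ⟨k', h6, h7, h8⟩ := halt (q k) j hj.symm hM t k h2 (by omega) h3 rfl
    rcases rho_fact q a b k hk.le j with ⟨t', g1, g2, g3, g4, g5⟩ | ⟨g1, g2⟩
    · have : ¬ t' < k' := fun h9 => g5 k' h9 h7 h8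
      omega
    · exact absurd h8 (g1 k' (by omega) h7)
  · have h3 := sig_first q a b k hk hkb (fun t ht1 ht2 => h1 t ht1.le ht2)
    rcases rho_fact q a b k hk.le j with ⟨t', g1, g2, g3, g4, g5⟩ | ⟨g1, g2⟩
    · omega
    · have h4 : (k : ℤ) - (b + 2) < sig q a b j := by
        apply sig_later q a b k hkb j
        intro t ht1 ht2
        by_cases h8 : t = k
        · rw [h8]
          exact hj.symm
        · exact g1 t ht1.le (by omega)
      omega

end ranks

lemma cc_ne_zero {B : Type*} (M : CoxeterMatrix B) (i j : B) (h : cc M i j ≠ 0) : M i j ≠ 2 := by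
  intro h2
  apply h
  unfold cc
  rw [h2]
  simp

theorem einv {B : Type*} [Fintype B] [DecidableEq B] {M : CoxeterMatrix B}
    {W : Type*} [Group W] (cs : CoxeterSystem M W) (hB : BaseF cs) : S_EINV cs := by
  intro n q U h a b x y halt hab hbn hu hs hxa hxb h0
  have key : ∀ k, a + 1 ≤ k → k ≤ b →
      E M (rho q a b k) (geo cs (h k)⁻¹ x) (geo cs (h k)⁻¹ y) =
        E M (rho q a b (a + 1)) (geo cs (h (a + 1))⁻¹ x) (geo cs (h (a + 1))⁻¹ y) := by
    intro k hk
    induction k, hk using Nat.le_induction with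
    | base => intro _; rfl
    | succ k hk ih =>
      intro hkb
      rw [← ih (by omega)]
      have g1 : ∀ j, j ≠ q k → rho q a b (k + 1) j = rho q a b k j :=
        fun j hj => rho_h1 q a b k (by omega) j hj
      have g2 : ∀ j, j ≠ q k → rho q a b (k + 1) j < rho q a b (k + 1) (q k) :=
        fun j hj => rho_h2 q a b k (by omega) j hj
      have g3 : ∀ j, j ≠ q k → cc M (q k) j ≠ 0 → rho q a b k (q k) < rho q a b k j :=
        fun j hj hc => rho_h3 n q a b halt hbn k (by omega) (by omega) j hj (cc_ne_zero M _ _ hc)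
      by_cases hkU : k ∈ U
      · have e1 : ∀ z, geo cs (h (k + 1))⁻¹ z = sg M (q k) (geo cs (h k)⁻¹ z) := by
          intro z
          rw [hu k (by omega) (by omega) hkU, mul_inv_rev, map_mul, Module.End.mul_apply,
            cs.inv_simple, geo_simple]
        rw [e1, e1]
        exact stepU M _ _ (q k) g1 g2 g3 _ _
      · rw [hs k (by omega) (by omega) hkU, stepC M _ _ (q k) g1 g2 g3,
          (h0 k (by omega) (by omega) hkU).1, (h0 k (by omega) (by omega) hkU).2]
        ring
  have hb := key b hab le_rfl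
  rw [hxb, hxa] at hb
  have eb : E M (rho q a b b) (ee (q b)) (geo cs (h b)⁻¹ y) = (geo cs (h b)⁻¹ y) (q b) := by
    have h1 := addA M (rho q a b b) (q b) (fun j hj hc =>
      rho_h3 n q a b halt hbn b hab le_rfl j hj (cc_ne_zero M _ _ hc)) 0 (geo cs (h b)⁻¹ y) 1
    rw [zero_add, one_smul, E_zero] at h1
    rw [h1]
    ring
  have ea : E M (rho q a b (a + 1)) (ee (q a)) (geo cs (h (a + 1))⁻¹ y) =
      coroot M (q a) (geo cs (h (a + 1))⁻¹ y) - (geo cs (h (a + 1))⁻¹ y) (q a) := by
    have h2 : ∀ j, j ≠ q a → rho q a b (a + 1) j < rho q a b (a + 1) (q a) :=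
        fun j hj => rho_h2 q a b a le_rfl j hj
    unfold E
    rw [Finset.sum_eq_single (q a)]
    · rw [coroot_apply, Finset.sum_add_distrib]
      simp only [ee, Pi.single_eq_same, mul_one, one_mul]
      have h3 : ∀ j, (if rho q a b (a + 1) j < rho q a b (a + 1) (q a) then
          -2 * cc M (q a) j * (geo cs (h (a + 1))⁻¹ y) j else 0) =
          -2 * cc M (q a) j * (geo cs (h (a + 1))⁻¹ y) j -
            (if q a = j then 2 * (geo cs (h (a + 1))⁻¹ y) j else 0) := by
        intro j
        by_cases hj : j = q a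
        · subst hj
          simp
        · rw [if_pos (h2 j hj), if_neg (fun h => hj h.symm)]
          ring
      rw [Finset.sum_congr rfl (fun j _ => h3 j), Finset.sum_sub_distrib,
        Finset.sum_ite_eq, Finset.sum_ite_eq]
      simp
      ring
    · intro i _ hi
      apply Finset.sum_eq_zero
      intro j _
      simp [ee, hi]
    · intro h
      exact absurd (Finset.mem_univ _) h
  rw [eb, ea] at hb
  rw [hb, ← hB.frm_ee, ← hxa, hB.frm_geo]

end Pool.Agent.W612.SC.Einv
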